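import Mathlib

/-! Arithmetic of the explicit vector `(θ₁, θ₂)` used for MP_ad5f6c_nt. -/

namespace Pool.Agent.Lib.MP_ad5f6c_nt

open Finset

/-- `Q k = 2^(3^k)`. -/
def Q (k : ℕ) : ℕ := 2 ^ (3 ^ k)

/-- `S k = Q 0 + ... + Q (k-1)`. -/
def S (k : ℕ) : ℕ := ∑ j ∈ range k, Q j

lemma Q_pos (k : ℕ) : 0 < Q k := by unfold Q; positivity

lemma Q_succ (k : ℕ) : Q (k + 1) = Q k ^ 3 := by
  unfold Q; rw [pow_succ, pow_mul]

lemma two_le_Q (k : ℕ) : 2 ≤ Q k := by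
  unfold Q
  calc 2 = 2 ^ 1 := by norm_num
    _ ≤ 2 ^ (3 ^ k) := Nat.pow_le_pow_right (by norm_num) (Nat.one_le_pow _ _ (by norm_num))

lemma Q_dvd {i j : ℕ} (h : i ≤ j) : Q i ∣ Q j := by
  unfold Q; exact pow_dvd_pow 2 (Nat.pow_le_pow_right (by norm_num) h)

lemma four_mul_Q_le (k : ℕ) : 4 * Q k ≤ Q (k + 1) := by
  rw [Q_succ]
  have h := two_le_Q k
  calc 4 * Q k ≤ (Q k * Q k) * Q k := Nat.mul_le_mul_right _ (Nat.mul_le_mul h h)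
    _ = Q k ^ 3 := by ring

lemma S_succ (k : ℕ) : S (k + 1) = S k + Q k := by
  unfold S; rw [sum_range_succ]

lemma Q_le_S_succ (k : ℕ) : Q k ≤ S (k + 1) := by rw [S_succ]; omega

lemma S_succ_le (k : ℕ) : S (k + 1) ≤ 2 * Q k := by
  induction k with
  | zero => rw [S_succ]; simp [S]; have := Q_pos 0; omega
  | succ k ih =>
    rw [S_succ]
    have := four_mul_Q_le k
    omega

/-- geometric growth: `4^i * Q k ≤ Q (k+i)`. -/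
lemma pow_mul_Q_le (k i : ℕ) : 4 ^ i * Q k ≤ Q (k + i) := by
  induction i with
  | zero => simp
  | succ i ih =>
    calc 4 ^ (i + 1) * Q k = 4 * (4 ^ i * Q k) := by ring
      _ ≤ 4 * Q (k + i) := Nat.mul_le_mul_left _ ih
      _ ≤ Q (k + i + 1) := four_mul_Q_le _
      _ = Q (k + (i + 1)) := by rw [add_assoc]

noncomputable def f₁ (i : ℕ) : ℝ := 1 / (Q i : ℝ)
noncomputable def f₂ (i : ℕ) : ℝ := (S i : ℝ) / (Q i : ℝ)

noncomputable def θ₁ : ℝ := ∑' i, f₁ i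
noncomputable def θ₂ : ℝ := ∑' i, f₂ i

lemma QR_pos (k : ℕ) : (0 : ℝ) < (Q k : ℝ) := by exact_mod_cast Q_pos k

lemma f₁_nonneg (i : ℕ) : 0 ≤ f₁ i := by unfold f₁; have := QR_pos i; positivity

lemma f₂_nonneg (i : ℕ) : 0 ≤ f₂ i := by unfold f₂; have := QR_pos i; positivity

lemma f₁_shift_le (k i : ℕ) : f₁ (k + i) ≤ (1 / (Q k : ℝ)) * (1 / 2) ^ i := by
  unfold f₁
  have h1 : ((4 : ℝ) ^ i * (Q k : ℝ)) ≤ (Q (k + i) : ℝ) := by exact_mod_cast pow_mul_Q_le k i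
  have h2 : ((2 : ℝ) ^ i * (Q k : ℝ)) ≤ (4 : ℝ) ^ i * (Q k : ℝ) := by
    apply mul_le_mul_of_nonneg_right _ (QR_pos k).le
    exact pow_le_pow_left₀ (by norm_num) (by norm_num) i
  have h3 : (0 : ℝ) < (2 : ℝ) ^ i * (Q k : ℝ) := mul_pos (by positivity) (QR_pos k)
  calc 1 / (Q (k + i) : ℝ) ≤ 1 / ((2 : ℝ) ^ i * (Q k : ℝ)) :=
        one_div_le_one_div_of_le h3 (le_trans h2 h1)
    _ = (1 / (Q k : ℝ)) * (1 / 2) ^ i := by
        rw [one_div_pow, one_div_mul_one_div, mul_comm]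

/-- `f₂ (j+1) ≤ 2 / Q j ^ 2`. -/
lemma f₂_succ_le (j : ℕ) : f₂ (j + 1) ≤ 2 / (Q j : ℝ) ^ 2 := by
  unfold f₂
  have h1 : (S (j + 1) : ℝ) ≤ 2 * (Q j : ℝ) := by exact_mod_cast S_succ_le j
  have h2 : (Q (j + 1) : ℝ) = (Q j : ℝ) ^ 3 := by exact_mod_cast Q_succ j
  rw [h2, div_le_div_iff₀ (pow_pos (QR_pos j) 3) (pow_pos (QR_pos j) 2)]
  have h3 : (0 : ℝ) ≤ (Q j : ℝ) ^ 2 := by positivity
  calc (S (j + 1) : ℝ) * (Q j : ℝ) ^ 2 ≤ (2 * (Q j : ℝ)) * (Q j : ℝ) ^ 2 :=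
        mul_le_mul_of_nonneg_right h1 h3
    _ = 2 * (Q j : ℝ) ^ 3 := by ring

lemma f₂_shift_le (k i : ℕ) : f₂ (k + 1 + i) ≤ (2 / (Q k : ℝ) ^ 2) * (1 / 2) ^ i := by
  have h0 : k + 1 + i = (k + i) + 1 := by ring
  rw [h0]
  refine le_trans (f₂_succ_le (k + i)) ?_
  have h1 : ((4 : ℝ) ^ i * (Q k : ℝ)) ≤ (Q (k + i) : ℝ) := by exact_mod_cast pow_mul_Q_le k i
  have h4 : (0 : ℝ) ≤ (4 : ℝ) ^ i * (Q k : ℝ) := mul_nonneg (by positivity) (QR_pos k).le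
  have h5 : ((4 : ℝ) ^ i * (Q k : ℝ)) ^ 2 ≤ (Q (k + i) : ℝ) ^ 2 := pow_le_pow_left₀ h4 h1 2
  have h6 : (2 : ℝ) ^ i * (Q k : ℝ) ^ 2 ≤ ((4 : ℝ) ^ i * (Q k : ℝ)) ^ 2 := by
    rw [mul_pow]
    apply mul_le_mul_of_nonneg_right _ (by positivity)
    rw [← pow_mul, mul_comm i 2, pow_mul]
    exact pow_le_pow_left₀ (by norm_num) (by norm_num) i
  have h3 : (0 : ℝ) < (2 : ℝ) ^ i * (Q k : ℝ) ^ 2 := mul_pos (by positivity) (pow_pos (QR_pos k) 2)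
  calc 2 / (Q (k + i) : ℝ) ^ 2 ≤ 2 / ((2 : ℝ) ^ i * (Q k : ℝ) ^ 2) :=
        div_le_div_of_nonneg_left (by norm_num) h3 (le_trans h6 h5)
    _ = (2 / (Q k : ℝ) ^ 2) * (1 / 2) ^ i := by
        rw [one_div_pow]; field_simp

lemma summable_f₁ : Summable f₁ := by
  refine Summable.of_nonneg_of_le f₁_nonneg (fun i => ?_)
    ((summable_geometric_two).mul_left (1 / (Q 0 : ℝ)))
  have := f₁_shift_le 0 i
  rwa [zero_add] at this

lemma summable_f₂ : Summable f₂ := by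
  rw [← summable_nat_add_iff 1]
  refine Summable.of_nonneg_of_le (fun i => f₂_nonneg _) (fun i => ?_)
    ((summable_geometric_two).mul_left (2 / (Q 0 : ℝ) ^ 2))
  have := f₂_shift_le 0 i
  rw [zero_add, add_comm] at this
  exact this

/-- `P k = ∑_{i ≤ k} Q k / Q i`. -/
def P (k : ℕ) : ℕ := ∑ i ∈ range (k + 1), Q k / Q i

lemma P_eq (k : ℕ) : (P k : ℝ) = (Q k : ℝ) * ∑ i ∈ range (k + 1), f₁ i := by
  unfold P
  rw [Nat.cast_sum, mul_sum]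
  apply sum_congr rfl
  intro i hi
  rw [mem_range] at hi
  rw [Nat.cast_div (Q_dvd (by omega)) (QR_pos i).ne']
  unfold f₁
  ring

lemma P_odd (k : ℕ) : Nat.Coprime (P k) (Q k) := by
  have h1 : Odd (P k) := by
    unfold P
    rw [sum_range_succ, Nat.div_self (Q_pos k)]
    apply Even.add_one
    apply Finset.even_sum
    intro i hi
    rw [mem_range] at hi
    -- Q k / Q i = 2^(3^k - 3^i)
    unfold Q
    rw [Nat.pow_div (Nat.pow_le_pow_right (by norm_num) hi.le) (by norm_num)]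
    rw [Nat.even_pow]
    refine ⟨even_two, ?_⟩
    have : 3 ^ i < 3 ^ k := Nat.pow_lt_pow_right (by norm_num) hi
    omega
  unfold Q
  exact Nat.Coprime.pow_right _ (Nat.coprime_two_right.mpr h1)

/-- `θ₁ = P k / Q k + ε` with `1/Q_k^3 ≤ ε ≤ 2/Q_k^3`. -/
lemma θ₁_approx (k : ℕ) : ∃ ε : ℝ, (Q k : ℝ) * θ₁ = (P k : ℝ) + ε ∧
    1 / (Q k : ℝ) ^ 2 ≤ ε ∧ ε ≤ 2 / (Q k : ℝ) ^ 2 := by
  have hsplit : θ₁ = ∑ i ∈ range (k + 1), f₁ i + ∑' i, f₁ (i + (k + 1)) := by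
    unfold θ₁
    exact (summable_f₁.sum_add_tsum_nat_add (k + 1)).symm
  obtain ⟨t, ht⟩ : ∃ t : ℝ, t = ∑' i, f₁ (i + (k + 1)) := ⟨_, rfl⟩
  rw [← ht] at hsplit
  have hsum : Summable (fun i => f₁ (i + (k + 1))) := (summable_nat_add_iff (k + 1)).mpr summable_f₁
  have hQ3 : (Q (k + 1) : ℝ) = (Q k : ℝ) ^ 3 := by exact_mod_cast Q_succ k
  have hQ := QR_pos k
  have hlow : 1 / (Q k : ℝ) ^ 3 ≤ t := by
    rw [ht]
    have h := hsum.le_tsum 0 (fun j _ => f₁_nonneg _)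
    rw [zero_add] at h
    have e : f₁ (k + 1) = 1 / (Q k : ℝ) ^ 3 := by unfold f₁; rw [hQ3]
    rw [e] at h
    exact h
  have hup : t ≤ 2 / (Q k : ℝ) ^ 3 := by
    rw [ht]
    have hg : HasSum (fun i : ℕ => (1 / (Q (k + 1) : ℝ)) * (1 / 2) ^ i)
        ((1 / (Q (k + 1) : ℝ)) * 2) := hasSum_geometric_two.mul_left _
    have h := hsum.tsum_le_tsum (fun i => by
      have := f₁_shift_le (k + 1) i
      rw [add_comm] at this
      exact this) hg.summable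
    rw [hg.tsum_eq, hQ3] at h
    calc ∑' i, f₁ (i + (k + 1)) ≤ 1 / (Q k : ℝ) ^ 3 * 2 := h
      _ = 2 / (Q k : ℝ) ^ 3 := by ring
  refine ⟨(Q k : ℝ) * t, ?_, ?_, ?_⟩
  · rw [hsplit, mul_add, P_eq]
  · calc 1 / (Q k : ℝ) ^ 2 = (Q k : ℝ) * (1 / (Q k : ℝ) ^ 3) := by field_simp
      _ ≤ (Q k : ℝ) * t := mul_le_mul_of_nonneg_left hlow hQ.le
  · calc (Q k : ℝ) * t ≤ (Q k : ℝ) * (2 / (Q k : ℝ) ^ 3) := mul_le_mul_of_nonneg_left hup hQ.le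
      _ = 2 / (Q k : ℝ) ^ 2 := by field_simp

lemma S_mono {i j : ℕ} (h : i ≤ j) : S i ≤ S j := by
  unfold S
  exact sum_le_sum_of_subset (range_subset_range.mpr h)

lemma Q_dvd_sub {i j : ℕ} (h : i ≤ j) : Q i ∣ S j - S i := by
  induction j, h using Nat.le_induction with
  | base => simp
  | succ j hj ih =>
    rw [S_succ]
    have h1 : S j + Q j - S i = (S j - S i) + Q j := by have := S_mono hj; omega
    rw [h1]
    exact dvd_add ih (Q_dvd hj)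

/-- `θ₂ = S(k+1) θ₁ + c + τ` with `c` an integer and `0 ≤ τ ≤ 4/Q_{k+1}^2`. -/
lemma θ₂_approx (k : ℕ) : ∃ (c : ℤ) (τ : ℝ), θ₂ = (S (k + 1) : ℝ) * θ₁ + (c : ℝ) + τ ∧
    0 ≤ τ ∧ τ ≤ 4 / (Q (k + 1) : ℝ) ^ 2 := by
  obtain ⟨s, hs⟩ : ∃ s : ℝ, s = (S (k + 1) : ℝ) := ⟨_, rfl⟩
  rw [← hs]
  -- the difference series
  have hsum : Summable (fun i => f₂ i - s * f₁ i) := summable_f₂.sub (summable_f₁.mul_left s)
  have hdiff : θ₂ - s * θ₁ = ∑' i, (f₂ i - s * f₁ i) := by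
    unfold θ₂ θ₁
    rw [← tsum_mul_left, (summable_f₂).tsum_sub (summable_f₁.mul_left s)]
  have hsplit := (hsum.sum_add_tsum_nat_add (k + 2)).symm
  obtain ⟨τ, hτ⟩ : ∃ τ : ℝ, τ = ∑' i, (f₂ (i + (k + 2)) - s * f₁ (i + (k + 2))) := ⟨_, rfl⟩
  rw [← hτ] at hsplit
  have hterm : ∀ i, f₂ i - s * f₁ i = ((S i : ℝ) - s) / (Q i : ℝ) := by
    intro i; unfold f₂ f₁; ring
  have hint : ∀ i ∈ range (k + 2), f₂ i - s * f₁ i
      = ((-(((S (k + 1) - S i) / Q i : ℕ) : ℤ) : ℤ) : ℝ) := by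
    intro i hi
    rw [mem_range] at hi
    rw [hterm]
    have h1 : i ≤ k + 1 := by omega
    rw [Int.cast_neg, Int.cast_natCast, Nat.cast_div (Q_dvd_sub h1) (QR_pos i).ne', Nat.cast_sub (S_mono h1), hs]
    ring
  refine ⟨∑ i ∈ range (k + 2), (-(((S (k + 1) - S i) / Q i : ℕ) : ℤ)), τ, ?_, ?_, ?_⟩
  · rw [Int.cast_sum, ← sum_congr rfl hint]
    linarith
  · rw [hτ]
    apply tsum_nonneg
    intro i
    rw [hterm]
    apply div_nonneg _ (QR_pos _).le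
    have : S (k + 1) ≤ S (i + (k + 2)) := S_mono (by omega)
    have h2 : (S (k + 1) : ℝ) ≤ (S (i + (k + 2)) : ℝ) := by exact_mod_cast this
    rw [hs]; linarith
  · rw [hτ]
    have hg : HasSum (fun i : ℕ => (2 / (Q (k + 1) : ℝ) ^ 2) * (1 / 2) ^ i)
        ((2 / (Q (k + 1) : ℝ) ^ 2) * 2) := hasSum_geometric_two.mul_left _
    have h := ((summable_nat_add_iff (k + 2)).mpr hsum).tsum_le_tsum (fun i => by
      show f₂ (i + (k + 2)) - s * f₁ (i + (k + 2)) ≤ (2 / (Q (k + 1) : ℝ) ^ 2) * (1 / 2) ^ i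
      have h1 := f₂_shift_le (k + 1) i
      have h2 : k + 1 + 1 + i = i + (k + 2) := by ring
      rw [h2] at h1
      have h3 : 0 ≤ s * f₁ (i + (k + 2)) := mul_nonneg (by rw [hs]; positivity) (f₁_nonneg _)
      linarith) hg.summable
    rw [hg.tsum_eq] at h
    calc _ ≤ 2 / (Q (k + 1) : ℝ) ^ 2 * 2 := h
      _ = 4 / (Q (k + 1) : ℝ) ^ 2 := by ring

end Pool.Agent.Lib.MP_ad5f6c_nt
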