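import Mathlib
import Pool.Agent.Lib.MP_ad5f6c_nt.Arith

/-! Diophantine estimates for the explicit vector `(θ₁, θ₂)` used for MP_ad5f6c_nt. -/

namespace Pool.Agent.Lib.MP_ad5f6c_nt

open Finset

/-- Non-singularity estimate. -/
lemma nonsing (k : ℕ) (q x y : ℤ) (hq : q ≠ 0) (hqN : |(q : ℝ)| ≤ (Q k : ℝ) ^ 2 / 4)
    (hx : |(q : ℝ) * θ₁ - x| ≤ 1 / (5 * (Q k : ℝ)))
    (hy : |(q : ℝ) * θ₂ - y| ≤ 1 / (5 * (Q k : ℝ))) : False := by
  obtain ⟨ε, hε, hε1, hε2⟩ := θ₁_approx k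
  obtain ⟨c, τ, hτ, hτ1, hτ2⟩ := θ₂_approx k
  obtain ⟨K, hK⟩ : ∃ K : ℝ, K = (Q k : ℝ) := ⟨_, rfl⟩
  obtain ⟨s, hs⟩ : ∃ s : ℝ, s = (S (k + 1) : ℝ) := ⟨_, rfl⟩
  have hK2 : 2 ≤ K := by rw [hK]; exact_mod_cast two_le_Q k
  have hK0 : 0 < K := by linarith
  have hQ3 : (Q (k + 1) : ℝ) = K ^ 3 := by rw [hK]; exact_mod_cast Q_succ k
  have hs1 : K ≤ s := by rw [hK, hs]; exact_mod_cast Q_le_S_succ k
  have hs2 : s ≤ 2 * K := by rw [hK, hs]; exact_mod_cast S_succ_le k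
  rw [← hK] at hqN hx hy hε hε1 hε2
  rw [← hs] at hτ
  rw [hQ3] at hτ2
  have hεpos : 0 < ε := lt_of_lt_of_le (by positivity) hε1
  have hqpos : 0 < |(q : ℝ)| := abs_pos.mpr (by exact_mod_cast hq)
  -- first relation : `Q_k x = P_k q`
  have hrel1 : (Q k : ℤ) * x = (P k : ℤ) * q := by
    have h1 : |(((Q k : ℤ) * x - (P k : ℤ) * q : ℤ) : ℝ)| < 1 := by
      push_cast
      rw [← hK]
      have e : K * (x : ℝ) - (P k : ℝ) * q = -(K * ((q : ℝ) * θ₁ - x)) + q * ε := by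
        linear_combination (q : ℝ) * hε
      rw [e]
      calc |-(K * ((q : ℝ) * θ₁ - x)) + q * ε|
          ≤ |-(K * ((q : ℝ) * θ₁ - x))| + |q * ε| := abs_add_le _ _
        _ = K * |(q : ℝ) * θ₁ - x| + |(q : ℝ)| * ε := by
            rw [abs_neg, abs_mul, abs_mul, abs_of_pos hK0, abs_of_pos hεpos]
        _ ≤ K * (1 / (5 * K)) + (K ^ 2 / 4) * (2 / K ^ 2) := by
            apply add_le_add
            · exact mul_le_mul_of_nonneg_left hx hK0.le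
            · exact mul_le_mul hqN hε2 hεpos.le (by positivity)
        _ = 7 / 10 := by field_simp; norm_num
        _ < 1 := by norm_num
    have h2 : |(Q k : ℤ) * x - (P k : ℤ) * q| < 1 := by exact_mod_cast h1
    have h3 := Int.abs_lt_one_iff.mp h2
    linarith
  -- hence `q = l Q_k`, `x = l P_k`
  obtain ⟨l, hl⟩ : ∃ l : ℤ, q = l * (Q k : ℤ) := by
    have hco : IsCoprime (Q k : ℤ) (P k : ℤ) :=
      (Nat.isCoprime_iff_coprime.mpr (P_odd k)).symm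
    have hd : (Q k : ℤ) ∣ q := hco.dvd_of_dvd_mul_left ⟨x, hrel1.symm⟩
    obtain ⟨l, hl⟩ := hd
    exact ⟨l, by rw [hl]; ring⟩
  have hQZ : (Q k : ℤ) ≠ 0 := by exact_mod_cast (Q_pos k).ne'
  have hxl : x = l * (P k : ℤ) := by
    have : (Q k : ℤ) * x = (Q k : ℤ) * (l * (P k : ℤ)) := by rw [hrel1, hl]; ring
    exact mul_left_cancel₀ hQZ this
  have hl0 : l ≠ 0 := by
    intro h; rw [h, zero_mul] at hl; exact hq hl
  have hl1 : 1 ≤ |(l : ℝ)| := by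
    have : 1 ≤ |l| := Int.one_le_abs hl0
    exact_mod_cast this
  have hlR : (q : ℝ) = l * K := by rw [hK]; exact_mod_cast congrArg (Int.cast : ℤ → ℝ) hl
  have hxR : (x : ℝ) = l * (P k : ℝ) := by exact_mod_cast congrArg (Int.cast : ℤ → ℝ) hxl
  have hdx : (q : ℝ) * θ₁ - x = l * ε := by
    rw [hlR, hxR]; linear_combination (l : ℝ) * hε
  -- second relation
  have hτ3 : |(q : ℝ)| * τ ≤ 1 / 16 := by
    calc |(q : ℝ)| * τ ≤ (K ^ 2 / 4) * (4 / (K ^ 3) ^ 2) :=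
          mul_le_mul hqN hτ2 hτ1 (by positivity)
      _ = 1 / K ^ 4 := by field_simp
      _ ≤ 1 / 2 ^ 4 := one_div_le_one_div_of_le (by norm_num)
          (pow_le_pow_left₀ (by norm_num) hK2 4)
      _ = 1 / 16 := by norm_num
  have hrel2 : y - (S (k + 1) : ℤ) * x - c * q = 0 := by
    have h1 : |((y - (S (k + 1) : ℤ) * x - c * q : ℤ) : ℝ)| < 1 := by
      push_cast
      rw [← hs]
      have e : (y : ℝ) - s * x - c * q
          = -((q : ℝ) * θ₂ - y) + s * ((q : ℝ) * θ₁ - x) + q * τ := by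
        linear_combination (q : ℝ) * hτ
      rw [e]
      calc |-((q : ℝ) * θ₂ - y) + s * ((q : ℝ) * θ₁ - x) + q * τ|
          ≤ |-((q : ℝ) * θ₂ - y) + s * ((q : ℝ) * θ₁ - x)| + |q * τ| := abs_add_le _ _
        _ ≤ |-((q : ℝ) * θ₂ - y)| + |s * ((q : ℝ) * θ₁ - x)| + |q * τ| := by
            gcongr; exact abs_add_le _ _
        _ = |(q : ℝ) * θ₂ - y| + s * |(q : ℝ) * θ₁ - x| + |(q : ℝ)| * τ := by
            rw [abs_neg, abs_mul, abs_mul, abs_of_nonneg (by linarith : (0 : ℝ) ≤ s),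
              abs_of_nonneg hτ1]
        _ ≤ 1 / (5 * K) + (2 * K) * (1 / (5 * K)) + 1 / 16 := by
            apply add_le_add (add_le_add hy _) hτ3
            exact mul_le_mul hs2 hx (abs_nonneg _) (by positivity)
        _ ≤ 1 / (5 * 2) + 2 / 5 + 1 / 16 := by
            apply add_le_add (add_le_add _ _) le_rfl
            · exact one_div_le_one_div_of_le (by norm_num) (by linarith)
            · apply le_of_eq; field_simp
        _ < 1 := by norm_num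
    have h2 : |y - (S (k + 1) : ℤ) * x - c * q| < 1 := by exact_mod_cast h1
    exact Int.abs_lt_one_iff.mp h2
  have hrel2R : (y : ℝ) - s * x - c * q = 0 := by
    rw [hs]; exact_mod_cast congrArg (Int.cast : ℤ → ℝ) hrel2
  have hdy : (q : ℝ) * θ₂ - y = s * (l * ε) + (l * K) * τ := by
    rw [← hdx, ← hlR]
    linear_combination (q : ℝ) * hτ - hrel2R
  -- lower bound for `|qθ₂ - y|`
  have h5 : (q : ℝ) * θ₂ - y = l * (s * ε + K * τ) := by rw [hdy]; ring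
  have h6 : |(q : ℝ) * θ₂ - y| = |(l : ℝ)| * (s * ε + K * τ) := by
    rw [h5, abs_mul]
    congr 1
    apply abs_of_nonneg
    have : 0 ≤ s * ε := mul_nonneg (by linarith) hεpos.le
    have : 0 ≤ K * τ := mul_nonneg hK0.le hτ1
    linarith
  have h7 : 1 / K ≤ s * ε + K * τ := by
    have a1 : K * (1 / K ^ 2) ≤ s * ε := mul_le_mul hs1 hε1 (by positivity) (by linarith)
    have a2 : K * (1 / K ^ 2) = 1 / K := by field_simp
    have a3 : 0 ≤ K * τ := mul_nonneg hK0.le hτ1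
    linarith
  have h8 : 1 / K ≤ |(q : ℝ) * θ₂ - y| := by
    rw [h6]
    have : 0 ≤ s * ε + K * τ := le_trans (by positivity) h7
    calc 1 / K ≤ 1 * (s * ε + K * τ) := by linarith
      _ ≤ |(l : ℝ)| * (s * ε + K * τ) := mul_le_mul_of_nonneg_right hl1 this
  have h9 : 1 / K ≤ 1 / (5 * K) := le_trans h8 hy
  have h10 : 1 / (5 * K) < 1 / K := one_div_lt_one_div_of_lt hK0 (by linarith)
  linarith

lemma norm_coe_le_abs (x : ℝ) : ‖(x : UnitAddCircle)‖ ≤ |x| := by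
  rw [UnitAddCircle.norm_eq]
  have := round_le x 0
  simpa using this

lemma coe_int_eq_zero (n : ℤ) : ((n : ℝ) : UnitAddCircle) = 0 := by
  rw [AddCircle.coe_eq_zero_iff]
  exact ⟨n, by simp⟩

/-- For each `k`: `‖s‖ ≤ (2 Q_k + 1) r + 4 |q| / Q_{k+1}^2`. -/
lemma circle_bound (k : ℕ) (q : ℤ) (s : UnitAddCircle) (r : ℝ)
    (h1 : ‖(((q : ℝ) * θ₁ : ℝ) : UnitAddCircle)‖ ≤ r)
    (h2 : ‖(((q : ℝ) * θ₂ : ℝ) : UnitAddCircle) - s‖ ≤ r) :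
    ‖s‖ ≤ (2 * (Q k : ℝ) + 1) * r + |(q : ℝ)| * (4 / (Q (k + 1) : ℝ) ^ 2) := by
  obtain ⟨c, τ, hτ, hτ1, hτ2⟩ := θ₂_approx k
  have hr : 0 ≤ r := le_trans (norm_nonneg _) h1
  have e : (((q : ℝ) * θ₂ : ℝ) : UnitAddCircle)
      = (S (k + 1)) • (((q : ℝ) * θ₁ : ℝ) : UnitAddCircle) + (((q : ℝ) * τ : ℝ) : UnitAddCircle) := by
    have h3 : (q : ℝ) * θ₂ = (S (k + 1)) • ((q : ℝ) * θ₁) + (q : ℝ) * τ + ((q * c : ℤ) : ℝ) := by
      rw [hτ, nsmul_eq_mul]; push_cast; ring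
    rw [h3, AddCircle.coe_add, AddCircle.coe_add, coe_int_eq_zero, add_zero, AddCircle.coe_nsmul]
  have h5 : s = (((q : ℝ) * θ₂ : ℝ) : UnitAddCircle) - ((((q : ℝ) * θ₂ : ℝ) : UnitAddCircle) - s) := by
    abel
  have hs2 : (S (k + 1) : ℝ) ≤ 2 * (Q k : ℝ) := by exact_mod_cast S_succ_le k
  calc ‖s‖ = ‖(((q : ℝ) * θ₂ : ℝ) : UnitAddCircle)
        - ((((q : ℝ) * θ₂ : ℝ) : UnitAddCircle) - s)‖ := by rw [← h5]
    _ ≤ ‖(((q : ℝ) * θ₂ : ℝ) : UnitAddCircle)‖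
        + ‖(((q : ℝ) * θ₂ : ℝ) : UnitAddCircle) - s‖ := norm_sub_le _ _
    _ ≤ (‖(S (k + 1)) • (((q : ℝ) * θ₁ : ℝ) : UnitAddCircle)‖
        + ‖(((q : ℝ) * τ : ℝ) : UnitAddCircle)‖) + r := by
          apply add_le_add _ h2
          rw [e]
          exact norm_add_le _ _
    _ ≤ ((2 * (Q k : ℝ)) * r + |(q : ℝ)| * (4 / (Q (k + 1) : ℝ) ^ 2)) + r := by
          apply add_le_add _ le_rfl
          apply add_le_add
          · refine le_trans (norm_nsmul_le) ?_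
            exact mul_le_mul hs2 h1 (norm_nonneg _) (by have := QR_pos k; positivity)
          · refine le_trans (norm_coe_le_abs _) ?_
            rw [abs_mul, abs_of_nonneg hτ1]
            exact mul_le_mul_of_nonneg_left hτ2 (abs_nonneg _)
    _ = (2 * (Q k : ℝ) + 1) * r + |(q : ℝ)| * (4 / (Q (k + 1) : ℝ) ^ 2) := by ring

/-- The badly approximable estimate. -/
lemma bad_bound (q : ℤ) (hq : q ≠ 0) (s : UnitAddCircle) (hs : s ≠ 0) (r : ℝ)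
    (h1 : ‖(((q : ℝ) * θ₁ : ℝ) : UnitAddCircle)‖ ≤ r)
    (h2 : ‖(((q : ℝ) * θ₂ : ℝ) : UnitAddCircle) - s‖ ≤ r) :
    ‖s‖ ^ 3 / 288 ≤ |(q : ℝ)| * r ^ 2 := by
  obtain ⟨δ, hδ⟩ : ∃ δ : ℝ, δ = ‖s‖ := ⟨_, rfl⟩
  have hδ0 : 0 < δ := by rw [hδ]; exact norm_pos_iff.mpr hs
  have hδ1 : δ ≤ 1 / 2 := by
    rw [hδ]
    have := AddCircle.norm_le_half_period (1 : ℝ) (x := s) one_ne_zero
    simpa using this
  have hr : 0 ≤ r := le_trans (norm_nonneg _) h1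
  have hq1 : 1 ≤ |(q : ℝ)| := by
    have : 1 ≤ |q| := Int.one_le_abs hq
    exact_mod_cast this
  have hex : ∃ k : ℕ, |(q : ℝ)| * (4 / (Q (k + 1) : ℝ) ^ 2) ≤ δ / 2 := by
    obtain ⟨k, hk⟩ := pow_unbounded_of_one_lt (8 * |(q : ℝ)| / δ) (by norm_num : (1 : ℝ) < 4)
    refine ⟨k, ?_⟩
    have h3 : ((4 : ℝ) ^ (k + 1) * (Q 0 : ℝ)) ≤ (Q (0 + (k + 1)) : ℝ) := by
      exact_mod_cast pow_mul_Q_le 0 (k + 1)
    rw [zero_add] at h3
    have hQ0 : (1 : ℝ) ≤ (Q 0 : ℝ) := by exact_mod_cast Q_pos 0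
    have h4 : (4 : ℝ) ^ k ≤ (Q (k + 1) : ℝ) := by
      calc (4 : ℝ) ^ k ≤ (4 : ℝ) ^ (k + 1) := pow_le_pow_right₀ (by norm_num) (by omega)
        _ = (4 : ℝ) ^ (k + 1) * 1 := by ring
        _ ≤ (4 : ℝ) ^ (k + 1) * (Q 0 : ℝ) := mul_le_mul_of_nonneg_left hQ0 (by positivity)
        _ ≤ _ := h3
    have h5 : (1 : ℝ) ≤ (Q (k + 1) : ℝ) := by exact_mod_cast Q_pos (k + 1)
    have h6 : 8 * |(q : ℝ)| / δ ≤ (Q (k + 1) : ℝ) ^ 2 := by
      calc 8 * |(q : ℝ)| / δ ≤ (Q (k + 1) : ℝ) := le_trans hk.le h4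
        _ = (Q (k + 1) : ℝ) * 1 := by ring
        _ ≤ (Q (k + 1) : ℝ) * (Q (k + 1) : ℝ) := mul_le_mul_of_nonneg_left h5 (by linarith)
        _ = (Q (k + 1) : ℝ) ^ 2 := by ring
    have h7 : (0 : ℝ) < (Q (k + 1) : ℝ) ^ 2 := pow_pos (QR_pos _) 2
    rw [div_le_iff₀ hδ0] at h6
    rw [mul_div_assoc', div_le_iff₀ h7]
    linarith
  classical
  obtain ⟨k, hk, hkmin⟩ : ∃ k : ℕ, |(q : ℝ)| * (4 / (Q (k + 1) : ℝ) ^ 2) ≤ δ / 2 ∧
      ∀ j < k, ¬ |(q : ℝ)| * (4 / (Q (j + 1) : ℝ) ^ 2) ≤ δ / 2 :=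
    ⟨Nat.find hex, Nat.find_spec hex, fun j hj => Nat.find_min hex hj⟩
  have hQk : (Q k : ℝ) ^ 2 * δ ≤ 8 * |(q : ℝ)| := by
    rcases Nat.eq_zero_or_pos k with h0 | h0
    · rw [h0]
      have : (Q 0 : ℝ) = 2 := by norm_num [Q]
      rw [this]
      nlinarith
    · obtain ⟨j, hj⟩ : ∃ j, k = j + 1 := ⟨k - 1, by omega⟩
      have h3 := hkmin j (by omega)
      rw [← hj, not_le] at h3
      have h7 : (0 : ℝ) < (Q k : ℝ) ^ 2 := pow_pos (QR_pos _) 2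
      rw [mul_div_assoc', lt_div_iff₀ h7] at h3
      linarith
  have hmain := circle_bound k q s r h1 h2
  rw [← hδ] at hmain ⊢
  have hK2 : (2 : ℝ) ≤ (Q k : ℝ) := by exact_mod_cast two_le_Q k
  obtain ⟨K, hK⟩ : ∃ K : ℝ, K = (Q k : ℝ) := ⟨_, rfl⟩
  rw [← hK] at hQk hmain hK2
  have h8 : δ / 2 ≤ (2 * K + 1) * r := by linarith
  have h9 : δ ≤ 6 * (K * r) := by nlinarith
  have h10 : δ ^ 2 ≤ 36 * (K ^ 2 * r ^ 2) := by
    have : δ ^ 2 ≤ (6 * (K * r)) ^ 2 := pow_le_pow_left₀ hδ0.le h9 2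
    calc δ ^ 2 ≤ (6 * (K * r)) ^ 2 := this
      _ = 36 * (K ^ 2 * r ^ 2) := by ring
  have h11 : δ ^ 3 ≤ 36 * (8 * |(q : ℝ)| * r ^ 2) := by
    calc δ ^ 3 = δ ^ 2 * δ := by ring
      _ ≤ 36 * (K ^ 2 * r ^ 2) * δ := mul_le_mul_of_nonneg_right h10 hδ0.le
      _ = 36 * ((K ^ 2 * δ) * r ^ 2) := by ring
      _ ≤ 36 * (8 * |(q : ℝ)| * r ^ 2) := by
          apply mul_le_mul_of_nonneg_left _ (by norm_num)
          exact mul_le_mul_of_nonneg_right hQk (by positivity)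
  linarith

end Pool.Agent.Lib.MP_ad5f6c_nt
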